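import Pool.Agent.TCK.Grp

/-!
# Groups of exponent dividing 12 generated by `x, y, z`: the four-group `V`

`V = {1, y, b, c}` with `b = x⁻¹ y x`, `c = x⁻¹ b x` is normalised by `x`.
-/

set_option autoImplicit false

namespace TCG

variable {G : Type*} [Group G]

/-- An element `x` of order dividing `3` which permutes the involutions `y, b, c` of a four-group
cyclically. -/
structure Fr (x y b c : G) : Prop where
  hx : x ^ 3 = 1
  hy : y * y = 1
  hb : b * b = 1
  hc : c * c = 1
  yb : y * b = c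
  xy : x⁻¹ * y * x = b
  xb : x⁻¹ * b * x = c
  xc : x⁻¹ * c * x = y

namespace Fr

variable {x y b c z g : G}

lemma by_ (h : Fr x y b c) : b * y = c := by
  have h1 : (y * b) * (y * b) = 1 := by rw [h.yb, h.hc]
  calc b * y = y * (y * b * (y * b)) * b⁻¹ * b⁻¹ * b := by
        have e1 : y * (y * b * (y * b)) * b⁻¹ * b⁻¹ * b = (y * y) * b * y := by group
        rw [e1, h.hy, one_mul]
    _ = y * b⁻¹ := by rw [h1]; group
    _ = y * b := by rw [← eq_inv_of_mul_eq_one_left h.hb]
    _ = c := h.yb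

lemma bc (h : Fr x y b c) : b * c = y := by
  rw [← h.by_, ← mul_assoc, h.hb, one_mul]

lemma cb (h : Fr x y b c) : c * b = y := by
  rw [← h.yb, mul_assoc, h.hb, mul_one]

lemma yc (h : Fr x y b c) : y * c = b := by
  rw [← h.yb, ← mul_assoc, h.hy, one_mul]

lemma cy (h : Fr x y b c) : c * y = b := by
  rw [← h.by_, mul_assoc, h.hy, mul_one]

lemma yi (h : Fr x y b c) : y⁻¹ = y := (eq_inv_of_mul_eq_one_left h.hy).symm
lemma bi (h : Fr x y b c) : b⁻¹ = b := (eq_inv_of_mul_eq_one_left h.hb).symm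
lemma ci (h : Fr x y b c) : c⁻¹ = c := (eq_inv_of_mul_eq_one_left h.hc).symm

/-- the data from the relations of the problem -/
lemma of (hx : x ^ 3 = 1) (hy : y ^ 2 = 1) (hxy : (x * y) ^ 3 = 1) :
    Fr x y (x⁻¹ * y * x) (x * y * x⁻¹) := by
  have hy' : y * y = 1 := by rw [← pow_two, hy]
  have e0 : y⁻¹ = y := (eq_inv_of_mul_eq_one_left hy').symm
  have x2 : x * x = x⁻¹ := by
    rw [eq_inv_iff_mul_eq_one, ← pow_three', hx]
  have x2' : x⁻¹ * x⁻¹ = x := by
    rw [← mul_inv_rev, x2, inv_inv]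
  have hxy' : x * y * x * y * x * y = 1 := by
    rw [← hxy, pow_three]; group
  have e1 : y * (x⁻¹ * y * x) = x * y * x⁻¹ := by
    have e2 : x * y * x⁻¹ = x⁻¹ * x⁻¹ * y * x * x := by
      rw [x2']; 
      have : x * y * x * x = x * y * (x * x) := by group
      rw [this, x2]
    have e3 : y * (x⁻¹ * y * x) * (x * y * x⁻¹)⁻¹ = 1 := by
      have e4 : y * (x⁻¹ * y * x) * (x * y * x⁻¹)⁻¹ = y * (x * x) * y * x * (x * y * x⁻¹)⁻¹ := by
        rw [x2]; group
      rw [e4]
      have e5 : y * (x * x) * y * x * (x * y * x⁻¹)⁻¹ = y * x * (x * y * x * x * y⁻¹ * x⁻¹) := by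
        group
      rw [e5, e0]
      have e7 : y * x * (x * y * x * x * y * x⁻¹) = 1 := by
        have f1 : y * x * y * x * y = x⁻¹ := by
          have : x * (y * x * y * x * y) = 1 := by rw [← hxy']; group
          exact (inv_eq_of_mul_eq_one_right this).symm
        have f2 : y * x⁻¹ * y * x⁻¹ * y = x := by
          have f3 : (y * x * y * x * y)⁻¹ = x := by rw [f1, inv_inv]
          have f4 : (y * x * y * x * y)⁻¹ = y⁻¹ * x⁻¹ * y⁻¹ * x⁻¹ * y⁻¹ := by group
          rw [f4, e0] at f3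
          exact f3
        calc y * x * (x * y * x * x * y * x⁻¹) = y * (x * x) * y * (x * x) * y * x⁻¹ := by group
          _ = (y * x⁻¹ * y * x⁻¹ * y) * x⁻¹ := by rw [x2]
          _ = 1 := by rw [f2]; group
      exact e7
    exact mul_inv_eq_one.mp e3
  refine ⟨hx, hy', ?_, ?_, e1, rfl, ?_, by group⟩
  · calc x⁻¹ * y * x * (x⁻¹ * y * x) = x⁻¹ * (y * y) * x := by group
      _ = 1 := by rw [hy']; group
  · calc x * y * x⁻¹ * (x * y * x⁻¹) = x * (y * y) * x⁻¹ := by group
      _ = 1 := by rw [hy']; group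
  · calc x⁻¹ * (x⁻¹ * y * x) * x = (x⁻¹ * x⁻¹) * y * (x * x) := by group
      _ = x * y * x⁻¹ := by rw [x2', x2]

/-- the four-group -/
def V (h : Fr x y b c) : Subgroup G where
  carrier := {1, y, b, c}
  one_mem' := by simp
  mul_mem' := by
    rintro u v (rfl | rfl | rfl | rfl) (rfl | rfl | rfl | rfl) <;>
      simp [h.hy, h.hb, h.hc, h.yb, h.by_, h.bc, h.cb, h.yc, h.cy]
  inv_mem' := by
    rintro u (rfl | rfl | rfl | rfl) <;> simp [h.yi, h.bi, h.ci]

lemma mem_V (h : Fr x y b c) {v : G} : v ∈ h.V ↔ v = 1 ∨ v = y ∨ v = b ∨ v = c := by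
  show v ∈ ({1, y, b, c} : Set G) ↔ _
  simp

lemma y_mem (h : Fr x y b c) : y ∈ h.V := h.mem_V.mpr (by simp)
lemma b_mem (h : Fr x y b c) : b ∈ h.V := h.mem_V.mpr (by simp)
lemma c_mem (h : Fr x y b c) : c ∈ h.V := h.mem_V.mpr (by simp)

/-- the elements of `V` have order at most two -/
lemma sq (h : Fr x y b c) {v : G} (hv : v ∈ h.V) : v * v = 1 := by
  rcases h.mem_V.mp hv with rfl | rfl | rfl | rfl
  · simp
  · exact h.hy
  · exact h.hb
  · exact h.hc

lemma comm (h : Fr x y b c) {u v : G} (hu : u ∈ h.V) (hv : v ∈ h.V) : u * v = v * u := by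
  have h1 := h.sq (h.V.mul_mem hu hv)
  have h2 := h.sq hu
  have h3 := h.sq hv
  have hu' : u⁻¹ = u := (eq_inv_of_mul_eq_one_left h2).symm
  have hv' : v⁻¹ = v := (eq_inv_of_mul_eq_one_left h3).symm
  calc u * v = (u * v)⁻¹ := eq_inv_of_mul_eq_one_left h1
    _ = v * u := by rw [mul_inv_rev, hu', hv']

/-- an element normalises `V` if it maps `V` into `V`, and its inverse also -/
lemma norm_of (h : Fr x y b c) (g : G) (h1 : ∀ v ∈ h.V, g * v * g⁻¹ ∈ h.V)
    (h2 : ∀ v ∈ h.V, g⁻¹ * v * g ∈ h.V) : g ∈ Subgroup.normalizer (h.V : Set G) := by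
  rw [Subgroup.mem_normalizer_iff]
  intro v
  constructor
  · exact h1 v
  · intro hv
    have := h2 _ hv
    have e : g⁻¹ * (g * v * g⁻¹) * g = v := by group
    rwa [e] at this

lemma x_norm (h : Fr x y b c) : x ∈ Subgroup.normalizer (h.V : Set G) := by
  apply h.norm_of
  · intro v hv
    rcases h.mem_V.mp hv with rfl | rfl | rfl | rfl
    · simp
    · have : x * v * x⁻¹ = c := by rw [← h.xc]; group
      rw [this]; exact h.c_mem
    · have : x * v * x⁻¹ = y := by rw [← h.xy]; group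
      rw [this]; exact h.y_mem
    · have : x * v * x⁻¹ = b := by rw [← h.xb]; group
      rw [this]; exact h.b_mem
  · intro v hv
    rcases h.mem_V.mp hv with rfl | rfl | rfl | rfl
    · simp
    · rw [h.xy]; exact h.b_mem
    · rw [h.xb]; exact h.c_mem
    · rw [h.xc]; exact h.y_mem

lemma V_norm (h : Fr x y b c) {v : G} (hv : v ∈ h.V) : v ∈ Subgroup.normalizer (h.V : Set G) :=
  Subgroup.le_normalizer hv

/-- an element of `V` which commutes with `z` up to `V`, with product of order three, is `z` -/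
lemma eq_of_norm (h : Fr x y b c) (hz : z * z = 1) (hyz : (y * z) ^ 3 = 1)
    (hn : z ∈ Subgroup.normalizer (h.V : Set G)) : y = z := by
  have hz' : z⁻¹ = z := (eq_inv_of_mul_eq_one_left hz).symm
  have hw : z * y * z ∈ h.V := by
    have := (Subgroup.mem_normalizer_iff.mp hn y).mp h.y_mem
    rwa [hz'] at this
  have e1 : y * (z * y * z) * y * z = 1 := by rw [← hyz, pow_three]; group
  rw [h.comm h.y_mem hw] at e1
  have e2 : (z * y * z) * y * y * z = (z * y * z) * (y * y) * z := by group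
  rw [e2, h.hy, mul_one] at e1
  have hzV : z ∈ h.V := by
    have : z = (z * y * z)⁻¹ := eq_inv_of_mul_eq_one_right e1
    rw [this]; exact h.V.inv_mem hw
  have e3 := h.sq (h.V.mul_mem h.y_mem hzV)
  have e4 : y * z = 1 := by
    have : (y * z) ^ 3 = (y * z) * ((y * z) * (y * z)) := pow_three _
    rw [hyz, e3, mul_one] at this
    exact this.symm
  rw [← hz']
  exact eq_inv_of_mul_eq_one_left e4

/-- the mirror image -/
lemma inv (h : Fr x y b c) : Fr x⁻¹ y c b := by
  refine ⟨by rw [inv_pow, h.hx, inv_one], h.hy, h.hc, h.hb, h.yc, ?_, ?_, ?_⟩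
  · rw [← h.xc]; group
  · rw [← h.xb]; group
  · rw [← h.xy]; group

end Fr

end TCG
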