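import Pool.Agent.TCK.Grp

/-!
# Small coset enumeration certificates
-/

set_option autoImplicit false

namespace TCG.C44

/-- both products have order dividing `4` -/
theorem c44 : TCK.checkW 0 [0, 1, 2] [(1347, 1), (99, 3), (100, 4), (16690, 1), (12626, 1), (101, 4)] [[0x2a900000008ae000000086e0000000eae0000000c6e000060080b000070002500007010060000000c620000500045000030002400006028260000000aa20000000282000040102600000006a200000002620000200806000000024200000000a200000020460000001806]] [6] = true := by decide +kernel

/-- both products have order dividing `3` -/
theorem c33 : TCK.checkW 0 [0, 1, 2] [(1347, 1), (16690, 1), (20802, 1), (12626, 1), (33122, 1), (37250, 1), (24978, 1), (99, 3), (100, 3), (101, 3), (148, 3)] [[0x2a9000000060e000030500b0000300046000050002600005010460000000c89000060480b00004000050000604006000000026200004018650000000682000040380600000002420000303025000000280500000004010000002006000000020100000000a20000000806]] [6] = true := by decide +kernel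

end TCG.C44
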