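import Pool.Agent.TCK.Grp

/-!
# Coset enumeration certificates for `⟨V, z⟩`
-/

set_option autoImplicit false

namespace TCG.CRed

/-- the reflection group of type `B_3`: the cube of `c z` is central -/
theorem b3 : TCK.checkW 0 [] [(1347, 1), (99, 3), (100, 4)] [[0x1e680000f0000b00017000450000f00026000000368300000034a100000032810000002ea100000000a20000000c820000002a6200000028a1000000268100000024a2000000228200000020a10000001e810000000c630000001a4200000018a1000000168200000014a2000000128100000010a20000000e820000000c420000000aa2000000088200000006a2000000048200000002a20000000082,
0x5c620000005aa20000004a620002b000060000500046000040082600000056a200000052420002a00024000020102400000052a200000050620000004ea20000003c620002500006000030004600002008260000004aa200000040420001f00024000180102400000046a2000000446200000042a200000040610000003ea200000000620000003aa20000100046000000004200000020a80000001e8e,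
0x3300026000230002600022000060002200826000360002400011010240000006aa2000000686200000066a200000032620000001c490000003a4e0000003cae0000c0004b0000b0082600031000260003200024000090102400000062a2000000566200013000240000002c690000003e6e00000040ae000200000b0000005a680000005cae000120004b0001100826000300002400004010240000005ea2,
0x38890001c0004b0002400824]] [15294577508705637, 19798177152853349, 24301776797001061, 28805376441148773, 111486167246181] = true := by decide +kernel

/-- both products have order dividing `6` -/
theorem g66 : TCK.checkW 0 [] [(1347, 1), (99, 3), (100, 6), (101, 6)] [[0x3a6100000038a1000000366100000034a1000000326100000030a10000002e610000002ca1000000006100013000040000000804000000284100000026a1000000044200000022a200000020610000001ea10000001c610000001aa1000000184100000016a1000000146200000012a100000010610000000ea20000000c420000000aa2000000086200000006a2000000046100000002a10000000041,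
0x24a90000002aae0000003e6e0000003cae0000003a6e0001d0002b00020008260000b00024000000448700000046ae000230004b00008008240000500026000040182600000048a2000000468100000044a2000000428200000040a10000003c81000140000600015010250000003ca2]] [1851908143179769341027] = true := by decide +kernel

end TCG.CRed
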