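import Pool.Agent.TCG.Local

/-!
# The mixed case with one explicit element
-/

set_option autoImplicit false

namespace TCG

variable {G : Type*} [Group G]

/-- `p = (x⁻¹ (z u z) x (z u z)) ^ 4` -/
def turn (x u z : G) : G := (x⁻¹ * (z * u * z) * x * (z * u * z)) ^ 4

/-- `(z u z) (p z p⁻¹)`, `p = (x⁻¹ (z u z) x (z u z)) ^ 4`: a product of a conjugate of `u` and a
conjugate of `z`, if `z` is an involution -/
def wit (x u z : G) : G := (z * u * z) * (turn x u z * z * (turn x u z)⁻¹)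

/-- **The case `(b z) ^ 4 = (c z) ^ 3 = 1`.** -/
theorem eq34w {x y b c z : G} (h : Fr x y b c) (e12 : ∀ a : G, a ^ 12 = 1) (hz : z * z = 1)
    (hyz : (y * z) ^ 3 = 1) (hbz : (b * z) ^ 4 = 1) (hcz : (c * z) ^ 3 = 1)
    (hC : (wit x b z) ^ 4 = 1 ∨ (wit x b z) ^ 6 = 1) : y = z := by
  unfold wit turn at hC
  have hg : (z * b * z) * (z * b * z) = 1 := by
    have : (z * b * z) * (z * b * z) = z * b * (z * z) * b * z := by group
    rw [this, hz, mul_one]
    have : z * b * b * z = z * (b * b) * z := by group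
    rw [this, h.hb, mul_one, hz]
  have hgy : (z * b * z) * y * (z * b * z) = c :=
    gy_of h.hy h.hb hz h.yb h.by_ hyz hbz hcz
  have zi : z⁻¹ = z := (eq_inv_of_mul_eq_one_left hz).symm
  have hgb : (z * b * z) * b * (z * b * z) = b := by
    have h1 : (b * z * b * z * b * z) * (b * z) = 1 := by
      rw [← hbz]; simp only [pow_succ, pow_zero, one_mul, mul_assoc]
    have h2 : b * z * b * z * b * z = z * b := by
      rw [eq_inv_of_mul_eq_one_left h1, mul_inv_rev, zi, h.bi]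
    calc (z * b * z) * b * (z * b * z) = z * (b * z * b * z * b * z) := by group
      _ = z * z * b := by rw [h2]; group
      _ = b := by rw [hz, one_mul]
  set g := z * b * z with hgdef
  have gi : g⁻¹ = g := (eq_inv_of_mul_eq_one_left hg).symm
  have hgc : g * c * g = y := by
    rw [← hgy]
    have : g * (g * y * g) * g = (g * g) * y * (g * g) := by group
    rw [this, hg]; group
  -- the conjugate of `g` by `x`
  have x1 : x * b * x⁻¹ = y := by rw [← h.xy]; group
  have x2 : x * c * x⁻¹ = b := by rw [← h.xb]; group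
  have x3 : x * y * x⁻¹ = c := by rw [← h.xc]; group
  set g1 := x⁻¹ * g * x with hg1
  have hg1g : g1 * g1 = 1 := sq_conj hg1.symm hg
  have g1i : g1⁻¹ = g1 := (eq_inv_of_mul_eq_one_left hg1g).symm
  have k1 : g1 * y * g1 = b := by
    calc g1 * y * g1 = x⁻¹ * (g * (x * y * x⁻¹) * g) * x := by rw [hg1]; group
      _ = b := by rw [x3, hgc, h.xy]
  have k2 : g1 * b * g1 = y := by
    calc g1 * b * g1 = x⁻¹ * (g * (x * b * x⁻¹) * g) * x := by rw [hg1]; group
      _ = y := by rw [x1, hgy, h.xc]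
  have k3 : g1 * c * g1 = c := by
    calc g1 * c * g1 = x⁻¹ * (g * (x * c * x⁻¹) * g) * x := by rw [hg1]; group
      _ = c := by rw [x2, hgb, h.xb]
  have pinv : (g1 * g)⁻¹ = g * g1 := by rw [mul_inv_rev, gi, g1i]
  have p1 : (g1 * g)⁻¹ * y * (g1 * g) = b := by
    rw [pinv]
    calc g * g1 * y * (g1 * g) = g * (g1 * y * g1) * g := by group
      _ = b := by rw [k1, hgb]
  have p2 : (g1 * g)⁻¹ * b * (g1 * g) = c := by
    rw [pinv]
    calc g * g1 * b * (g1 * g) = g * (g1 * b * g1) * g := by group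
      _ = c := by rw [k2, hgy]
  have p3 : (g1 * g)⁻¹ * c * (g1 * g) = y := by
    rw [pinv]
    calc g * g1 * c * (g1 * g) = g * (g1 * c * g1) * g := by group
      _ = y := by rw [k3, hgc]
  set p := g1 * g with hp
  have q : ∀ v : G, (p ^ 4)⁻¹ * v * p ^ 4 = p⁻¹ * (p⁻¹ * (p⁻¹ * (p⁻¹ * v * p) * p) * p) * p := by
    intro v
    simp only [pow_succ, pow_zero, one_mul, mul_inv_rev, mul_assoc]
  have hA : Amal (p ^ 4) y b c z g ((p ^ 4)⁻¹ * z * p ^ 4)
      ((p ^ 4)⁻¹ * ((p ^ 4)⁻¹ * z * p ^ 4) * p ^ 4) := by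
    refine ⟨⟨by rw [← pow_mul]; exact e12 p, h.hy, h.hb, h.hc, h.yb, ?_, ?_, ?_⟩, hz, hg, rfl, rfl,
      rfl, ?_, hgy, hgb, hyz, hbz, hcz⟩
    · rw [q, p1, p2, p3, p1]
    · rw [q, p2, p3, p1, p2]
    · rw [q, p3, p1, p2, p3]
    · have e1 : g * p * g = p⁻¹ := by
        rw [pinv, hp]
        calc g * (g1 * g) * g = g * g1 * (g * g) := by group
          _ = g * g1 := by rw [hg, mul_one]
      have e2 : g * p ^ 4 * g = (p ^ 4)⁻¹ := by
        have := conj_pow (i := 4) (a := g) (b := p)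
        rw [gi, e1] at this
        rw [← this, inv_pow]
      calc p ^ 4 * g * (p ^ 4 * g) = p ^ 4 * (g * p ^ 4 * g) := by group
        _ = 1 := by rw [e2, mul_inv_cancel]
  refine hA.eq e12 ?_
  have e3 : (p ^ 4)⁻¹ * ((p ^ 4)⁻¹ * z * p ^ 4) * p ^ 4 = p ^ 4 * z * (p ^ 4)⁻¹ :=
    conj3 (by rw [← pow_mul]; exact e12 p)
  rw [e3]
  exact hC

end TCG
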