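import Pool.Agent.TCG.Base
import Pool.Agent.TCG.C34

/-!
# The case `(b z) ^ 4 = (c z) ^ 3 = 1`

Here `y, b, c, z` generate a quotient of `S_4`, and `g = z b z` normalises `V`. The element `x` can be
replaced by `p = (x⁻¹ g x g) ^ 4`, which is inverted by `g`.
-/

set_option autoImplicit false

namespace TCG

open TCK

variable {G : Type*} [Group G]

/-- the letters -/
def ev (x y b c z g t s : G) : ℕ → G
  | 0 => x
  | 1 => x⁻¹
  | 2 => y
  | 3 => b
  | 4 => c
  | 5 => z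
  | 6 => g
  | 7 => t
  | 8 => s
  | _ => 1

lemma lt_ev {x y b c z g t s : G} (hy : y * y = 1) (hb : b * b = 1) (hc : c * c = 1) (hz : z * z = 1)
    (hg : g * g = 1) (ht : t * t = 1) (hs : s * s = 1) : Lt (ev x y b c z g t s) := by
  constructor
  · rfl
  · intro a ha
    interval_cases a
    · exact mul_inv_cancel x
    · exact inv_mul_cancel x
    · exact hy
    · exact hb
    · exact hc
    · exact hz
    · exact hg
    · exact ht
    · exact hs
    all_goals exact mul_one 1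

lemma spec {e : ℕ → G} {code k : ℕ} {L : List ℕ} (h1 : wd 64 code = L) (h2 : (evw e L) ^ k = 1) :
    (evw e (wd 64 code)) ^ k = 1 := by
  rw [h1, h2]

lemma conj_pow1 (x u : G) (k : ℕ) (h : u ^ k = 1) : (x⁻¹ * u * x) ^ k = 1 := by
  have := conj_pow (i := k) (a := x⁻¹) (b := u)
  rw [inv_inv] at this
  rw [this, h]
  group

lemma rot_pow {x u v u' v' : G} {k : ℕ} (hu : x⁻¹ * u * x = u') (hv : x⁻¹ * v * x = v')
    (h : (u * v) ^ k = 1) : (u' * v') ^ k = 1 := by
  rw [← hu, ← hv]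
  have : x⁻¹ * u * x * (x⁻¹ * v * x) = x⁻¹ * (u * v) * x := by group
  rw [this]
  exact conj_pow1 _ _ _ h

lemma sq_conj {x u u' : G} (hu : x⁻¹ * u * x = u') (h : u * u = 1) : u' * u' = 1 := by
  rw [← hu]
  have : x⁻¹ * u * x * (x⁻¹ * u * x) = x⁻¹ * (u * u) * x := by group
  rw [this, h]
  group

lemma conj3 {q z : G} (h : q ^ 3 = 1) : q⁻¹ * (q⁻¹ * z * q) * q = q * z * q⁻¹ := by
  rw [pow_three] at h
  have e1 : q⁻¹ = q * q := inv_eq_of_mul_eq_one_right h
  have e2 : q⁻¹ * q⁻¹ = q := by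
    rw [← mul_inv_rev]
    exact inv_eq_of_mul_eq_one_left h
  calc q⁻¹ * (q⁻¹ * z * q) * q = (q⁻¹ * q⁻¹) * z * (q * q) := by group
    _ = q * z * q⁻¹ := by rw [e2, ← e1]

/-- the relations of the amalgam -/
structure Amal (x y b c z g t s : G) : Prop where
  fr : Fr x y b c
  hz : z * z = 1
  hg : g * g = 1
  xz : x⁻¹ * z * x = t
  xt : x⁻¹ * t * x = s
  gz : z * b * z = g
  xg : x * g * (x * g) = 1
  gy : g * y * g = c
  gb : g * b * g = b
  yz : (y * z) ^ 3 = 1
  bz : (b * z) ^ 4 = 1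
  cz : (c * z) ^ 3 = 1

namespace Amal

variable {x y b c z g t s : G}

lemma xs (h : Amal x y b c z g t s) : x⁻¹ * s * x = z := by
  rw [← h.xt, ← h.xz]
  have e : x⁻¹ * (x⁻¹ * (x⁻¹ * z * x) * x) * x = (x ^ 3)⁻¹ * z * x ^ 3 := by
    rw [pow_three]; group
  rw [e, h.fr.hx]
  group

lemma ht (h : Amal x y b c z g t s) : t * t = 1 := sq_conj h.xz h.hz
lemma hs (h : Amal x y b c z g t s) : s * s = 1 := sq_conj h.xt h.ht

lemma lt (h : Amal x y b c z g t s) : Lt (ev x y b c z g t s) :=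
  lt_ev h.fr.hy h.fr.hb h.fr.hc h.hz h.hg h.ht h.hs

lemma three {u v : G} (h : (u * v) ^ 3 = 1) : (u * (v * (u * (v * (u * (v * 1)))))) ^ 1 = 1 := by
  rw [pow_one, mul_one]
  have : u * (v * (u * (v * (u * v)))) = (u * v) ^ 3 := by simp only [pow_three, mul_assoc]
  rw [this, h]

lemma four {u v : G} (h : (u * v) ^ 4 = 1) :
    (u * (v * (u * (v * (u * (v * (u * (v * 1)))))))) ^ 1 = 1 := by
  rw [pow_one, mul_one]
  have : u * (v * (u * (v * (u * (v * (u * v)))))) = (u * v) ^ 4 := by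
    simp only [pow_succ, pow_zero, one_mul, mul_assoc]
  rw [this, h]

lemma conj {u v w : G} (h : u⁻¹ * v * u = w) (hw : w * w = 1) :
    (u⁻¹ * (v * (u * (w * 1)))) ^ 1 = 1 := by
  rw [pow_one, mul_one, ← mul_assoc, ← mul_assoc, h, hw]

lemma a_ybc (h : Amal x y b c z g t s) : (y * (b * (c * 1))) ^ 1 = 1 := by
  rw [pow_one, mul_one, ← mul_assoc, h.fr.yb, h.fr.hc]
lemma a_Xzxt (h : Amal x y b c z g t s) : (x⁻¹ * (z * (x * (t * 1)))) ^ 1 = 1 := conj h.xz h.ht
lemma a_Xsxz (h : Amal x y b c z g t s) : (x⁻¹ * (s * (x * (z * 1)))) ^ 1 = 1 := conj h.xs h.hz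
lemma a_Xtxs (h : Amal x y b c z g t s) : (x⁻¹ * (t * (x * (s * 1)))) ^ 1 = 1 := conj h.xt h.hs
lemma a_Xbxc (h : Amal x y b c z g t s) : (x⁻¹ * (b * (x * (c * 1)))) ^ 1 = 1 :=
  conj h.fr.xb h.fr.hc
lemma a_Xcxy (h : Amal x y b c z g t s) : (x⁻¹ * (c * (x * (y * 1)))) ^ 1 = 1 :=
  conj h.fr.xc h.fr.hy
lemma a_Xyxb (h : Amal x y b c z g t s) : (x⁻¹ * (y * (x * (b * 1)))) ^ 1 = 1 :=
  conj h.fr.xy h.fr.hb
lemma a_xgxg (h : Amal x y b c z g t s) : (x * (g * (x * (g * 1)))) ^ 1 = 1 := by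
  rw [pow_one, mul_one, ← mul_assoc, h.xg]
lemma a_zbzg (h : Amal x y b c z g t s) : (z * (b * (z * (g * 1)))) ^ 1 = 1 := by
  rw [pow_one, mul_one, ← mul_assoc, ← mul_assoc, h.gz, h.hg]
lemma gc (h : Amal x y b c z g t s) : g * c * g = y := by
  rw [← h.gy]
  have : g * (g * y * g) * g = (g * g) * y * (g * g) := by group
  rw [this, h.hg]; group
lemma a_ygcg (h : Amal x y b c z g t s) : (y * (g * (c * (g * 1)))) ^ 1 = 1 := by
  rw [pow_one, mul_one, ← mul_assoc g c g, h.gc, h.fr.hy]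
lemma a_gbgb (h : Amal x y b c z g t s) : (g * (b * (g * (b * 1)))) ^ 1 = 1 := by
  rw [pow_one, mul_one, ← mul_assoc, ← mul_assoc, h.gb, h.fr.hb]
lemma a_xxx (h : Amal x y b c z g t s) : (x * (x * (x * 1))) ^ 1 = 1 := by
  rw [pow_one, mul_one, ← pow_three, h.fr.hx]
lemma bt_ (h : Amal x y b c z g t s) : (b * t) ^ 3 = 1 := rot_pow h.fr.xy h.xz h.yz
lemma cs_ (h : Amal x y b c z g t s) : (c * s) ^ 3 = 1 := rot_pow h.fr.xb h.xt h.bt_
lemma yt_ (h : Amal x y b c z g t s) : (y * t) ^ 3 = 1 := rot_pow h.fr.xc h.xz h.cz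
lemma bs_ (h : Amal x y b c z g t s) : (b * s) ^ 3 = 1 := rot_pow h.fr.xy h.xt h.yt_
lemma ct_ (h : Amal x y b c z g t s) : (c * t) ^ 4 = 1 := rot_pow h.fr.xb h.xz h.bz
lemma ys_ (h : Amal x y b c z g t s) : (y * s) ^ 4 = 1 := rot_pow h.fr.xc h.xt h.ct_

/-- the certificate for the case of order dividing six -/
lemma mem6 (h : Amal x y b c z g t s) (e12 : ∀ a : G, a ^ 12 = 1) (hgs : (g * s) ^ 6 = 1)
    (H : Subgroup G) (hx : x ∈ H) (hy : y ∈ H) (hg : g ∈ H) : z ∈ H := by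
  have h1 := members h.lt H (subs := [0, 1, 2, 6]) ?_ ?_ C34.c6
  · have h2 := h1 6 (by simp)
    have h3 : wd 256 6 = [5] := by decide +kernel
    rw [h3] at h2
    simpa [evw, ev] using h2
  · intro a ha
    simp only [List.mem_cons, List.not_mem_nil, or_false] at ha
    rcases ha with rfl | rfl | rfl | rfl
    · exact ⟨by norm_num, hx⟩
    · exact ⟨by norm_num, H.inv_mem hx⟩
    · exact ⟨by norm_num, hy⟩
    · exact ⟨by norm_num, hg⟩
  · intro p hp
    have hgs' : (g * (s * 1)) ^ 6 = 1 := by rw [mul_one, hgs]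
    simp only [List.mem_cons, List.not_mem_nil, or_false] at hp
    rcases hp with rfl | rfl | rfl | rfl | rfl | rfl | rfl | rfl | rfl | rfl | rfl | rfl | rfl |
      rfl | rfl | rfl | rfl | rfl | rfl | rfl | rfl | rfl | rfl
    · exact spec (L := [2, 3, 4]) (by decide +kernel) h.a_ybc
    · exact spec (L := [1, 5, 0, 7]) (by decide +kernel) h.a_Xzxt
    · exact spec (L := [0, 6, 0, 6]) (by decide +kernel) h.a_xgxg
    · exact spec (L := [1, 8, 0, 5]) (by decide +kernel) h.a_Xsxz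
    · exact spec (L := [5, 3, 5, 6]) (by decide +kernel) h.a_zbzg
    · exact spec (L := [1, 7, 0, 8]) (by decide +kernel) h.a_Xtxs
    · exact spec (L := [2, 6, 4, 6]) (by decide +kernel) h.a_ygcg
    · exact spec (L := [1, 3, 0, 4]) (by decide +kernel) h.a_Xbxc
    · exact spec (L := [1, 4, 0, 2]) (by decide +kernel) h.a_Xcxy
    · exact spec (L := [1, 2, 0, 3]) (by decide +kernel) h.a_Xyxb
    · exact spec (L := [2, 7, 2, 7, 2, 7]) (by decide +kernel) (three h.yt_)
    · exact spec (L := [3, 7, 3, 7, 3, 7]) (by decide +kernel) (three h.bt_)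
    · exact spec (L := [2, 5, 2, 5, 2, 5]) (by decide +kernel) (three h.yz)
    · exact spec (L := [0, 0, 0]) (by decide +kernel) h.a_xxx
    · exact spec (L := [3, 8, 3, 8, 3, 8]) (by decide +kernel) (three h.bs_)
    · exact spec (L := [4, 8, 4, 8, 4, 8]) (by decide +kernel) (three h.cs_)
    · exact spec (L := [6, 3, 6, 3]) (by decide +kernel) h.a_gbgb
    · exact spec (L := [4, 5, 4, 5, 4, 5]) (by decide +kernel) (three h.cz)
    · exact spec (L := [2, 8, 2, 8, 2, 8, 2, 8]) (by decide +kernel) (four h.ys_)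
    · exact spec (L := [3, 5, 3, 5, 3, 5, 3, 5]) (by decide +kernel) (four h.bz)
    · exact spec (L := [4, 7, 4, 7, 4, 7, 4, 7]) (by decide +kernel) (four h.ct_)
    · exact spec (L := [6, 8]) (by decide +kernel) hgs'
    · exact e12 _

/-- the certificate for the case of order dividing four -/
lemma mem4 (h : Amal x y b c z g t s) (e12 : ∀ a : G, a ^ 12 = 1) (hgs : (g * s) ^ 4 = 1)
    (H : Subgroup G) (hx : x ∈ H) (hy : y ∈ H) (hg : g ∈ H) : z ∈ H := by
  have h1 := members h.lt H (subs := [0, 1, 2, 6]) ?_ ?_ C34.c4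
  · have h2 := h1 6 (by simp)
    have h3 : wd 256 6 = [5] := by decide +kernel
    rw [h3] at h2
    simpa [evw, ev] using h2
  · intro a ha
    simp only [List.mem_cons, List.not_mem_nil, or_false] at ha
    rcases ha with rfl | rfl | rfl | rfl
    · exact ⟨by norm_num, hx⟩
    · exact ⟨by norm_num, H.inv_mem hx⟩
    · exact ⟨by norm_num, hy⟩
    · exact ⟨by norm_num, hg⟩
  · intro p hp
    have hgs' : (g * (s * 1)) ^ 4 = 1 := by rw [mul_one, hgs]
    simp only [List.mem_cons, List.not_mem_nil, or_false] at hp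
    rcases hp with rfl | rfl | rfl | rfl | rfl | rfl | rfl | rfl | rfl | rfl | rfl | rfl | rfl |
      rfl | rfl | rfl
    · exact spec (L := [2, 3, 4]) (by decide +kernel) h.a_ybc
    · exact spec (L := [5, 3, 5, 6]) (by decide +kernel) h.a_zbzg
    · exact spec (L := [1, 5, 0, 7]) (by decide +kernel) h.a_Xzxt
    · exact spec (L := [1, 3, 0, 4]) (by decide +kernel) h.a_Xbxc
    · exact spec (L := [1, 8, 0, 5]) (by decide +kernel) h.a_Xsxz
    · exact spec (L := [1, 2, 0, 3]) (by decide +kernel) h.a_Xyxb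
    · exact spec (L := [0, 6, 0, 6]) (by decide +kernel) h.a_xgxg
    · exact spec (L := [2, 6, 4, 6]) (by decide +kernel) h.a_ygcg
    · exact spec (L := [1, 7, 0, 8]) (by decide +kernel) h.a_Xtxs
    · exact spec (L := [3, 7, 3, 7, 3, 7]) (by decide +kernel) (three h.bt_)
    · exact spec (L := [6, 8]) (by decide +kernel) hgs'
    · exact spec (L := [0, 0, 0]) (by decide +kernel) h.a_xxx
    · exact spec (L := [1, 4, 0, 2]) (by decide +kernel) h.a_Xcxy
    · exact spec (L := [2, 5, 2, 5, 2, 5]) (by decide +kernel) (three h.yz)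
    · exact spec (L := [4, 8, 4, 8, 4, 8]) (by decide +kernel) (three h.cs_)
    · exact e12 _

lemma g_norm (h : Amal x y b c z g t s) : g ∈ Subgroup.normalizer (h.fr.V : Set G) := by
  have hgi : g⁻¹ = g := (eq_inv_of_mul_eq_one_left h.hg).symm
  have key : ∀ v ∈ h.fr.V, g * v * g ∈ h.fr.V := by
    intro v hv
    rcases h.fr.mem_V.mp hv with rfl | rfl | rfl | rfl
    · rw [mul_one, h.hg]; exact h.fr.V.one_mem
    · rw [h.gy]; exact h.fr.c_mem
    · rw [h.gb]; exact h.fr.b_mem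
    · rw [h.gc]; exact h.fr.y_mem
  apply h.fr.norm_of
  · intro v hv; rw [hgi]; exact key v hv
  · intro v hv; rw [hgi]; exact key v hv

theorem eq (h : Amal x y b c z g t s) (e12 : ∀ a : G, a ^ 12 = 1)
    (hgs : (g * s) ^ 4 = 1 ∨ (g * s) ^ 6 = 1) : y = z := by
  refine h.fr.eq_of_norm h.hz h.yz ?_
  rcases hgs with hgs | hgs
  · exact h.mem4 e12 hgs _ h.fr.x_norm (h.fr.V_norm h.fr.y_mem) h.g_norm
  · exact h.mem6 e12 hgs _ h.fr.x_norm (h.fr.V_norm h.fr.y_mem) h.g_norm

end Amal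

/-- In the group generated by `y, b, z` the involution `g = z b z` maps `y` to `c`. -/
lemma gy_of {y b c z : G} (hy : y * y = 1) (hb : b * b = 1) (hz : z * z = 1) (hyb : y * b = c)
    (hby : b * y = c) (hyz : (y * z) ^ 3 = 1) (hbz : (b * z) ^ 4 = 1) (hcz : (c * z) ^ 3 = 1) :
    (z * b * z) * y * (z * b * z) = c := by
  have yi : y⁻¹ = y := (eq_inv_of_mul_eq_one_left hy).symm
  have bi : b⁻¹ = b := (eq_inv_of_mul_eq_one_left hb).symm
  have zi : z⁻¹ = z := (eq_inv_of_mul_eq_one_left hz).symm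
  -- `z y z = y z y`
  have e1 : z * y * z = y * z * y := by
    have h1 : y * z * y * z * y * z = 1 := by rw [← hyz, pow_three]; group
    have h2 : (y * z * y) * (z * y * z) = 1 := by rw [← h1]; group
    have h3 : (y * z * y)⁻¹ = z * y * z := inv_eq_of_mul_eq_one_right h2
    rw [← h3]
    simp only [mul_inv_rev, yi, zi, mul_assoc]
  -- `z b z b = b z b z`
  have e2 : z * b * z * b = b * z * b * z := by
    have h1 : (b * z * b * z) * (b * z * b * z) = 1 := by
      rw [← hbz]; simp only [pow_succ, pow_zero, one_mul, mul_assoc]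
    have h3 : (b * z * b * z)⁻¹ = b * z * b * z := inv_eq_of_mul_eq_one_right h1
    rw [← h3]
    simp only [mul_inv_rev, bi, zi, mul_assoc]
  have e3 : c * z * c * z * c * z = 1 := by rw [← hcz, pow_three]; group
  -- `z c z = c z c`
  have ci : c⁻¹ = c := by rw [← hyb, mul_inv_rev, yi, bi, hby, hyb]
  have e4 : z * c * z = c * z * c := by
    have h2 : (c * z * c) * (z * c * z) = 1 := by rw [← e3]; group
    have h3 : (c * z * c)⁻¹ = z * c * z := inv_eq_of_mul_eq_one_right h2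
    rw [← h3]
    simp only [mul_inv_rev, ci, zi, mul_assoc]
  -- `z b (z y z) b z = z b y z y b z = z c z c z = c z c c z = c`
  calc (z * b * z) * y * (z * b * z) = z * b * (z * y * z) * b * z := by group
    _ = z * b * (y * z * y) * b * z := by rw [e1]
    _ = z * (b * y) * z * (y * b) * z := by group
    _ = (z * c * z) * c * z := by rw [hby, hyb]
    _ = c * z * c * c * z := by rw [e4]
    _ = c * z * (c * c) * z := by group
    _ = c * (z * z) := by
      have : c * c = 1 := by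
        calc c * c = (y * b) * (b * y) := by rw [hyb, hby]
          _ = y * (b * b) * y := by group
          _ = 1 := by rw [hb, mul_one, hy]
      rw [this]; group
    _ = c := by rw [hz, mul_one]

/-- **The case `(b z) ^ 4 = (c z) ^ 3 = 1`.** -/
theorem eq34 {x y b c z : G} (h : Fr x y b c) (e12 : ∀ a : G, a ^ 12 = 1) (hz : z * z = 1)
    (hyz : (y * z) ^ 3 = 1) (hbz : (b * z) ^ 4 = 1) (hcz : (c * z) ^ 3 = 1)
    (hC : ∀ p : G, ((z * b * z) * (p * z * p⁻¹)) ^ 4 = 1 ∨ ((z * b * z) * (p * z * p⁻¹)) ^ 6 = 1) :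
    y = z := by
  have hg : (z * b * z) * (z * b * z) = 1 := by
    have : (z * b * z) * (z * b * z) = z * b * (z * z) * b * z := by group
    rw [this, hz, mul_one]
    have : z * b * b * z = z * (b * b) * z := by group
    rw [this, h.hb, mul_one, hz]
  have hgy : (z * b * z) * y * (z * b * z) = c :=
    gy_of h.hy h.hb hz h.yb h.by_ hyz hbz hcz
  have zi : z⁻¹ = z := (eq_inv_of_mul_eq_one_left hz).symm
  have hgb : (z * b * z) * b * (z * b * z) = b := by
    have h1 : (b * z * b * z * b * z) * (b * z) = 1 := by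
      rw [← hbz]; simp only [pow_succ, pow_zero, one_mul, mul_assoc]
    have h2 : b * z * b * z * b * z = z * b := by
      rw [eq_inv_of_mul_eq_one_left h1, mul_inv_rev, zi, h.bi]
    calc (z * b * z) * b * (z * b * z) = z * (b * z * b * z * b * z) := by group
      _ = z * z * b := by rw [h2]; group
      _ = b := by rw [hz, one_mul]
  set g := z * b * z with hgdef
  have gi : g⁻¹ = g := (eq_inv_of_mul_eq_one_left hg).symm
  have hgc : g * c * g = y := by
    rw [← hgy]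
    have : g * (g * y * g) * g = (g * g) * y * (g * g) := by group
    rw [this, hg]; group
  -- the conjugate of `g` by `x`
  have x1 : x * b * x⁻¹ = y := by rw [← h.xy]; group
  have x2 : x * c * x⁻¹ = b := by rw [← h.xb]; group
  have x3 : x * y * x⁻¹ = c := by rw [← h.xc]; group
  set g1 := x⁻¹ * g * x with hg1
  have hg1g : g1 * g1 = 1 := sq_conj hg1.symm hg
  have g1i : g1⁻¹ = g1 := (eq_inv_of_mul_eq_one_left hg1g).symm
  have k1 : g1 * y * g1 = b := by
    calc g1 * y * g1 = x⁻¹ * (g * (x * y * x⁻¹) * g) * x := by rw [hg1]; group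
      _ = b := by rw [x3, hgc, h.xy]
  have k2 : g1 * b * g1 = y := by
    calc g1 * b * g1 = x⁻¹ * (g * (x * b * x⁻¹) * g) * x := by rw [hg1]; group
      _ = y := by rw [x1, hgy, h.xc]
  have k3 : g1 * c * g1 = c := by
    calc g1 * c * g1 = x⁻¹ * (g * (x * c * x⁻¹) * g) * x := by rw [hg1]; group
      _ = c := by rw [x2, hgb, h.xb]
  have pinv : (g1 * g)⁻¹ = g * g1 := by rw [mul_inv_rev, gi, g1i]
  have p1 : (g1 * g)⁻¹ * y * (g1 * g) = b := by
    rw [pinv]
    calc g * g1 * y * (g1 * g) = g * (g1 * y * g1) * g := by group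
      _ = b := by rw [k1, hgb]
  have p2 : (g1 * g)⁻¹ * b * (g1 * g) = c := by
    rw [pinv]
    calc g * g1 * b * (g1 * g) = g * (g1 * b * g1) * g := by group
      _ = c := by rw [k2, hgy]
  have p3 : (g1 * g)⁻¹ * c * (g1 * g) = y := by
    rw [pinv]
    calc g * g1 * c * (g1 * g) = g * (g1 * c * g1) * g := by group
      _ = y := by rw [k3, hgc]
  set p := g1 * g with hp
  have q : ∀ v : G, (p ^ 4)⁻¹ * v * p ^ 4 = p⁻¹ * (p⁻¹ * (p⁻¹ * (p⁻¹ * v * p) * p) * p) * p := by
    intro v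
    simp only [pow_succ, pow_zero, one_mul, mul_inv_rev, mul_assoc]
  have hA : Amal (p ^ 4) y b c z g ((p ^ 4)⁻¹ * z * p ^ 4)
      ((p ^ 4)⁻¹ * ((p ^ 4)⁻¹ * z * p ^ 4) * p ^ 4) := by
    refine ⟨⟨by rw [← pow_mul]; exact e12 p, h.hy, h.hb, h.hc, h.yb, ?_, ?_, ?_⟩, hz, hg, rfl, rfl,
      rfl, ?_, hgy, hgb, hyz, hbz, hcz⟩
    · rw [q, p1, p2, p3, p1]
    · rw [q, p2, p3, p1, p2]
    · rw [q, p3, p1, p2, p3]
    · have e1 : g * p * g = p⁻¹ := by
        rw [pinv, hp]
        calc g * (g1 * g) * g = g * g1 * (g * g) := by group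
          _ = g * g1 := by rw [hg, mul_one]
      have e2 : g * p ^ 4 * g = (p ^ 4)⁻¹ := by
        have := conj_pow (i := 4) (a := g) (b := p)
        rw [gi, e1] at this
        rw [← this, inv_pow]
      calc p ^ 4 * g * (p ^ 4 * g) = p ^ 4 * (g * p ^ 4 * g) := by group
        _ = 1 := by rw [e2, mul_inv_cancel]
  refine hA.eq e12 ?_
  have e3 : (p ^ 4)⁻¹ * ((p ^ 4)⁻¹ * z * p ^ 4) * p ^ 4 = p ^ 4 * z * (p ^ 4)⁻¹ :=
    conj3 (by rw [← pow_mul]; exact e12 p)
  rw [e3]
  exact hC (p ^ 4)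

end TCG
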