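import Pool.Agent.TCG.Small

/-!
# The local theorem: products of conjugates of order at most four
-/

set_option autoImplicit false

namespace TCG

variable {G : Type*} [Group G]

/-- `(y z) ^ 3 = 1` makes the involutions `y` and `z` conjugate -/
lemma isConj_of_three {y z : G} (hy : y * y = 1) (hz : z * z = 1) (hyz : (y * z) ^ 3 = 1) :
    IsConj y z := by
  rw [isConj_iff]
  refine ⟨y * z, ?_⟩
  have yi : y⁻¹ = y := (eq_inv_of_mul_eq_one_left hy).symm
  have zi : z⁻¹ = z := (eq_inv_of_mul_eq_one_left hz).symm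
  have h1 : (y * z * y * z) * (y * z) = 1 := by rw [← hyz, pow_three]; group
  have h2 : y * z * y * z = z * y := by
    rw [eq_inv_of_mul_eq_one_left h1, mul_inv_rev, yi, zi]
  calc y * z * y * (y * z)⁻¹ = y * z * y * z * y := by rw [mul_inv_rev, yi, zi]; group
    _ = z * y * y := by rw [h2]
    _ = z * (y * y) := by group
    _ = z := by rw [hy, mul_one]

/-- If no product of two conjugates of `y` has order `6` or `12` then `y = z`. -/
theorem eq_of_orders {x y z : G} (e12 : ∀ a : G, a ^ 12 = 1) (hx : x ^ 3 = 1) (hy : y ^ 2 = 1)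
    (hz : z ^ 2 = 1) (hxy : (x * y) ^ 3 = 1) (hyz : (y * z) ^ 3 = 1)
    (hC : ∀ u v : G, IsConj y u → IsConj y v → (u * v) ^ 3 = 1 ∨ (u * v) ^ 4 = 1) : y = z := by
  have h := Fr.of hx hy hxy
  set b := x⁻¹ * y * x with hbdef
  set c := x * y * x⁻¹ with hcdef
  have hz' : z * z = 1 := by rw [← pow_two, hz]
  have zi : z⁻¹ = z := (eq_inv_of_mul_eq_one_left hz').symm
  have cz : IsConj y z := isConj_of_three h.hy hz' hyz
  have cb : IsConj y b := by
    rw [isConj_iff]; exact ⟨x⁻¹, by rw [inv_inv]⟩
  have cc : IsConj y c := by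
    rw [isConj_iff]; exact ⟨x, rfl⟩
  have key : ∀ u : G, IsConj y u → ∀ p : G, ((z * u * z) * (p * z * p⁻¹)) ^ 4 = 1 ∨
      ((z * u * z) * (p * z * p⁻¹)) ^ 6 = 1 := by
    intro u hu p
    have h1 : IsConj y (z * u * z) := by
      refine hu.trans ?_
      rw [isConj_iff]
      exact ⟨z, by rw [zi]⟩
    have h2 : IsConj y (p * z * p⁻¹) := by
      refine cz.trans ?_
      rw [isConj_iff]
      exact ⟨p, rfl⟩
    rcases hC _ _ h1 h2 with h3 | h3
    · right
      rw [show 6 = 3 * 2 from rfl, pow_mul, h3, one_pow]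
    · left; exact h3
  rcases hC b z cb cz with hb | hb <;> rcases hC c z cc cz with hc | hc
  · exact eq33 h hz' hyz hb hc
  · exact eq34 h.inv e12 hz' hyz hc hb (key c cc)
  · exact eq34 h e12 hz' hyz hb hc (key b cb)
  · exact eq44 h hz' hyz hb hc

/-- the group generated by `x` and `y` has at most `12` elements -/
theorem card_le {x y b c : G} (h : Fr x y b c) (hgen : Subgroup.closure ({x, y} : Set G) = ⊤) :
    Finite G ∧ Nat.card G ≤ 12 := by
  classical
  set S : Finset G := (({1, y, b, c} : Finset G) ×ˢ ({1, x, x⁻¹} : Finset G)).image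
    (fun p => p.1 * p.2) with hS
  have hcard : S.card ≤ 12 := by
    refine Finset.card_image_le.trans ?_
    rw [Finset.card_product]
    exact Nat.mul_le_mul Finset.card_le_four Finset.card_le_three
  have mem : ∀ v ∈ h.V, ∀ i : G, (i = 1 ∨ i = x ∨ i = x⁻¹) → v * i ∈ S := by
    intro v hv i hi
    rw [hS, Finset.mem_image]
    refine ⟨(v, i), ?_, rfl⟩
    rw [Finset.mem_product]
    constructor
    · simpa using h.mem_V.mp hv
    · simpa using hi
  have x2 : x * x = x⁻¹ := by
    have := h.hx
    rw [pow_three] at this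
    exact (inv_eq_of_mul_eq_one_right this).symm
  have x3 : x⁻¹ * x⁻¹ = x := by rw [← mul_inv_rev, x2, inv_inv]
  have memi : ∀ g ∈ S, ∃ v ∈ h.V, ∃ i, (i = 1 ∨ i = x ∨ i = x⁻¹) ∧ g = v * i := by
    intro g hg
    rw [hS, Finset.mem_image] at hg
    obtain ⟨⟨v, i⟩, h1, h2⟩ := hg
    rw [Finset.mem_product] at h1
    refine ⟨v, ?_, i, ?_, h2.symm⟩
    · have := h1.1
      rw [h.mem_V]
      simpa using this
    · have := h1.2
      simpa using this
  -- right multiplication by `x`, `x⁻¹` and by elements of `V`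
  have rx : ∀ g ∈ S, g * x ∈ S := by
    intro g hg
    obtain ⟨v, hv, i, hi, rfl⟩ := memi g hg
    rw [mul_assoc]
    rcases hi with rfl | rfl | rfl
    · exact mem v hv _ (by simp)
    · exact mem v hv _ (by simp [x2])
    · exact mem v hv _ (by simp)
  have rxi : ∀ g ∈ S, g * x⁻¹ ∈ S := by
    intro g hg
    obtain ⟨v, hv, i, hi, rfl⟩ := memi g hg
    rw [mul_assoc]
    rcases hi with rfl | rfl | rfl
    · exact mem v hv _ (by simp)
    · exact mem v hv _ (by simp)
    · exact mem v hv _ (by simp [x3])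
  have ry : ∀ g ∈ S, g * y ∈ S := by
    intro g hg
    obtain ⟨v, hv, i, hi, rfl⟩ := memi g hg
    have hi' : i ∈ Subgroup.normalizer (h.V : Set G) := by
      rcases hi with rfl | rfl | rfl
      · exact Subgroup.one_mem _
      · exact h.x_norm
      · exact Subgroup.inv_mem _ h.x_norm
    have h1 : i * y * i⁻¹ ∈ h.V := (Subgroup.mem_normalizer_iff.mp hi' y).mp h.y_mem
    have h2 : v * i * y = (v * (i * y * i⁻¹)) * i := by group
    rw [h2]
    exact mem _ (h.V.mul_mem hv h1) i hi
  have all : ∀ g : G, g ∈ S := by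
    intro g
    have hg : g ∈ Subgroup.closure ({x, y} : Set G) := by rw [hgen]; trivial
    induction hg using Subgroup.closure_induction_right with
    | one =>
      have := mem 1 h.V.one_mem 1 (Or.inl rfl)
      rwa [mul_one] at this
    | mul_right a _ u hu ih =>
      rcases hu with rfl | hu
      · exact rx a ih
      · rw [Set.mem_singleton_iff] at hu
        subst hu
        exact ry a ih
    | mul_inv_cancel a _ u hu ih =>
      rcases hu with rfl | hu
      · exact rxi a ih
      · rw [Set.mem_singleton_iff] at hu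
        subst hu
        rw [h.yi]
        exact ry a ih
  have hfin : Finite G := by
    refine Set.finite_univ_iff.mp ?_
    exact (S.finite_toSet).subset fun g _ => all g
  refine ⟨hfin, ?_⟩
  have := Fintype.ofFinite G
  rw [Nat.card_eq_fintype_card]
  refine le_trans ?_ hcard
  rw [← Finset.card_univ]
  exact Finset.card_le_card fun g _ => all g

end TCG
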