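import Pool.Agent.TCG.Local
import Pool.Agent.TCG.CRed

/-!
# The reduction: no product of two conjugates of `y` has order `12`

If no product of two conjugates of `y` has order `12` then `y = z`, or some conjugate `z'` of `y`
with `z' ≠ y` and `(y z') ^ 3 = 1` is in one of two configurations.
-/

set_option autoImplicit false

namespace TCG

open TCK

variable {G : Type*} [Group G]

lemma comm_of_sq {u v : G} (hu : u * u = 1) (hv : v * v = 1) (h : u * v * u * v = 1) :
    u * v = v * u := by
  have ui : u⁻¹ = u := (eq_inv_of_mul_eq_one_left hu).symm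
  have vi : v⁻¹ = v := (eq_inv_of_mul_eq_one_left hv).symm
  have h1 : (u * v) * (u * v) = 1 := by rw [← h]; group
  calc u * v = (u * v)⁻¹ := eq_inv_of_mul_eq_one_left h1
    _ = v * u := by rw [mul_inv_rev, ui, vi]

/-- `⟨V, z⟩` when `b z` has order dividing `4`: the cube of `c z` is a central involution. -/
theorem central {x y b c z : G} (h : Fr x y b c) (hz : z * z = 1) (hyz : (y * z) ^ 3 = 1)
    (hbz : (b * z) ^ 4 = 1) :
    (c * z) ^ 3 * (c * z) ^ 3 = 1 ∧ (c * z) ^ 3 * y = y * (c * z) ^ 3 ∧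
    (c * z) ^ 3 * b = b * (c * z) ^ 3 ∧ (c * z) ^ 3 * c = c * (c * z) ^ 3 ∧
    (c * z) ^ 3 * z = z * (c * z) ^ 3 := by
  have hlt : Lt (ev x y b c z 1 1 1) := lt_ev h.hy h.hb h.hc hz (mul_one 1) (mul_one 1) (mul_one 1)
  have h1 := identities hlt ?_ CRed.b3
  · have e1 := h1 15294577508705637 (by simp)
    have e2 := h1 19798177152853349 (by simp)
    have e3 := h1 24301776797001061 (by simp)
    have e4 := h1 28805376441148773 (by simp)
    have e5 := h1 111486167246181 (by simp)
    have d1 : wd 256 15294577508705637 = [4, 5, 4, 5, 4, 5, 2, 4, 5, 4, 5, 4, 5, 2] := by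
      decide +kernel
    have d2 : wd 256 19798177152853349 = [4, 5, 4, 5, 4, 5, 3, 4, 5, 4, 5, 4, 5, 3] := by
      decide +kernel
    have d3 : wd 256 24301776797001061 = [4, 5, 4, 5, 4, 5, 4, 4, 5, 4, 5, 4, 5, 4] := by
      decide +kernel
    have d4 : wd 256 28805376441148773 = [4, 5, 4, 5, 4, 5, 5, 4, 5, 4, 5, 4, 5, 5] := by
      decide +kernel
    have d5 : wd 256 111486167246181 = [4, 5, 4, 5, 4, 5, 4, 5, 4, 5, 4, 5] := by
      decide +kernel
    rw [d1] at e1; rw [d2] at e2; rw [d3] at e3; rw [d4] at e4; rw [d5] at e5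
    simp only [evw, ev, mul_one] at e1 e2 e3 e4 e5
    have k : ∀ u : G, (c * z) ^ 3 * u * (c * z) ^ 3 * u =
        c * (z * (c * (z * (c * (z * (u * (c * (z * (c * (z * (c * (z * u)))))))))))) := by
      intro u; rw [pow_three]; simp only [mul_assoc]
    have k5 : (c * z) ^ 3 * (c * z) ^ 3 =
        c * (z * (c * (z * (c * (z * (c * (z * (c * (z * (c * z)))))))))) := by
      rw [pow_three]; simp only [mul_assoc]
    have f5 : (c * z) ^ 3 * (c * z) ^ 3 = 1 := by rw [k5]; exact e5
    exact ⟨f5, comm_of_sq f5 h.hy (by rw [k]; exact e1), comm_of_sq f5 h.hb (by rw [k]; exact e2),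
      comm_of_sq f5 h.hc (by rw [k]; exact e3), comm_of_sq f5 hz (by rw [k]; exact e4)⟩
  · intro p hp
    simp only [List.mem_cons, List.not_mem_nil, or_false] at hp
    rcases hp with rfl | rfl | rfl
    · refine spec (L := [2, 3, 4]) (by decide +kernel) ?_
      show (y * (b * (c * 1))) ^ 1 = 1
      rw [pow_one, mul_one, ← mul_assoc, h.yb, h.hc]
    · refine spec (L := [2, 5]) (by decide +kernel) ?_
      show (y * (z * 1)) ^ 3 = 1
      rw [mul_one, hyz]
    · refine spec (L := [3, 5]) (by decide +kernel) ?_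
      show (b * (z * 1)) ^ 4 = 1
      rw [mul_one, hbz]

/-- `⟨V, z⟩` when both `b z` and `c z` have order dividing `6`. -/
theorem six {x y b c z : G} (h : Fr x y b c) (hz : z * z = 1) (hyz : (y * z) ^ 3 = 1)
    (hbz : (b * z) ^ 6 = 1) (hcz : (c * z) ^ 6 = 1) : (y * (z * b * z * b * z)) ^ 3 = 1 := by
  have hlt : Lt (ev x y b c z 1 1 1) := lt_ev h.hy h.hb h.hc hz (mul_one 1) (mul_one 1) (mul_one 1)
  have h1 := identities hlt ?_ CRed.g66
  · have e1 := h1 1851908143179769341027 (by simp)
    have d1 : wd 256 1851908143179769341027 =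
        [2, 5, 3, 5, 3, 5, 2, 5, 3, 5, 3, 5, 2, 5, 3, 5, 3, 5] := by
      decide +kernel
    rw [d1] at e1
    simp only [evw, ev, mul_one] at e1
    rw [pow_three, ← e1]
    simp only [mul_assoc]
  · intro p hp
    simp only [List.mem_cons, List.not_mem_nil, or_false] at hp
    rcases hp with rfl | rfl | rfl | rfl
    · refine spec (L := [2, 3, 4]) (by decide +kernel) ?_
      show (y * (b * (c * 1))) ^ 1 = 1
      rw [pow_one, mul_one, ← mul_assoc, h.yb, h.hc]
    · refine spec (L := [2, 5]) (by decide +kernel) ?_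
      show (y * (z * 1)) ^ 3 = 1
      rw [mul_one, hyz]
    · refine spec (L := [3, 5]) (by decide +kernel) ?_
      show (b * (z * 1)) ^ 6 = 1
      rw [mul_one, hbz]
    · refine spec (L := [4, 5]) (by decide +kernel) ?_
      show (c * (z * 1)) ^ 6 = 1
      rw [mul_one, hcz]

lemma eq_of_comm {y z : G} (hy : y * y = 1) (hz : z * z = 1) (hyz : (y * z) ^ 3 = 1)
    (hc : y * z = z * y) : y = z := by
  have h1 : (y * z) * (y * z) = 1 := by
    calc (y * z) * (y * z) = (y * z) * (z * y) := by rw [← hc]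
      _ = y * (z * z) * y := by group
      _ = 1 := by rw [hz, mul_one, hy]
  have h2 : y * z = 1 := by
    rw [pow_three, h1, mul_one] at hyz
    exact hyz
  calc y = y * (z * z) := by rw [hz, mul_one]
    _ = (y * z) * z := by group
    _ = z := by rw [h2, one_mul]

/-- one half of the reduction -/
theorem half {x y b c z : G} (h : Fr x y b c) (e12 : ∀ a : G, a ^ 12 = 1) (hz : z * z = 1)
    (hyz : (y * z) ^ 3 = 1) (hbz : (b * z) ^ 4 = 1)
    (hC : ∀ p : G, ((z * b * z) * (p * z * p⁻¹)) ^ 4 = 1 ∨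
      ((z * b * z) * (p * z * p⁻¹)) ^ 6 = 1) :
    y = z ∨ b * z = z * b ∨ (c * z) ^ 3 ∉ h.V := by
  by_cases hV : (c * z) ^ 3 ∈ h.V
  swap
  · exact Or.inr (Or.inr hV)
  obtain ⟨n2, ny, nb, nc, nz⟩ := central h hz hyz hbz
  have hV' : (c * z) ^ 3 = 1 ∨ (c * z) ^ 3 = y ∨ (c * z) ^ 3 = b ∨ (c * z) ^ 3 = c := hV
  rcases hV' with e | e | e | e
  · left
    exact eq34 h e12 hz hyz hbz e hC
  · left
    rw [e] at nz
    exact eq_of_comm h.hy hz hyz nz
  · right; left
    rw [e] at nz
    exact nz
  · left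
    rw [e] at nz
    have h2 : (c * z) * (c * z) = 1 := by
      calc (c * z) * (c * z) = (c * z) * (z * c) := by rw [← nz]
        _ = c * (z * z) * c := by group
        _ = 1 := by rw [hz, mul_one, h.hc]
    rw [pow_three, h2, mul_one] at e
    have z1 : z = 1 := by
      calc z = c * (c * z) := by rw [← mul_assoc, h.hc, one_mul]
        _ = 1 := by rw [e, h.hc]
    rw [z1, mul_one, pow_three, h.hy, mul_one] at hyz
    rw [hyz, z1]

/-- **The reduction.** If no product of two conjugates of `y` has order `12` then `y = z` or some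
conjugate `z'` of `y` with `z' ≠ y` and `(y z') ^ 3 = 1` commutes with one of `b`, `c`, or one of
`b z'`, `c z'` has order dividing `4` and the cube of the other one is outside `V`. In the second
case `z' = z`. -/
theorem reduce {x y z : G} (e12 : ∀ a : G, a ^ 12 = 1) (hx : x ^ 3 = 1) (hy : y ^ 2 = 1)
    (hz : z ^ 2 = 1) (hxy : (x * y) ^ 3 = 1) (hyz : (y * z) ^ 3 = 1)
    (hC : ∀ u v : G, IsConj y u → IsConj y v → (u * v) ^ 4 = 1 ∨ (u * v) ^ 6 = 1)
    (hA : ∀ w : G, IsConj y w → w * w = 1 → (y * w) ^ 3 = 1 →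
      ((x⁻¹ * y * x) * w = w * (x⁻¹ * y * x) ∨ (x * y * x⁻¹) * w = w * (x * y * x⁻¹)) → y = w) :
    y = z ∨
    (((x⁻¹ * y * x) * z) ^ 4 = 1 ∧ ((x * y * x⁻¹) * z) ^ 3 ∉ (Fr.of hx hy hxy).V) ∨
    (((x * y * x⁻¹) * z) ^ 4 = 1 ∧ ((x⁻¹ * y * x) * z) ^ 3 ∉ (Fr.of hx hy hxy).V) := by
  have h := Fr.of hx hy hxy
  have hVe : ∀ g, g ∈ (Fr.of hx hy hxy).V ↔ g ∈ h.V := fun g => Iff.rfl
  have hVi : ∀ g, g ∈ h.inv.V ↔ g ∈ h.V := by
    intro g
    rw [Fr.mem_V, Fr.mem_V]
    tauto
  simp only [hVe]
  set b := x⁻¹ * y * x with hbdef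
  set c := x * y * x⁻¹ with hcdef
  have hz' : z * z = 1 := by rw [← pow_two, hz]
  have zi : z⁻¹ = z := (eq_inv_of_mul_eq_one_left hz').symm
  have cz : IsConj y z := isConj_of_three h.hy hz' hyz
  have cb : IsConj y b := by
    rw [isConj_iff]; exact ⟨x⁻¹, by rw [inv_inv]⟩
  have cc : IsConj y c := by
    rw [isConj_iff]; exact ⟨x, rfl⟩
  have key : ∀ u : G, IsConj y u → ∀ p : G, ((z * u * z) * (p * z * p⁻¹)) ^ 4 = 1 ∨
      ((z * u * z) * (p * z * p⁻¹)) ^ 6 = 1 := by
    intro u hu p
    have h1 : IsConj y (z * u * z) := by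
      refine hu.trans ?_
      rw [isConj_iff]
      exact ⟨z, by rw [zi]⟩
    have h2 : IsConj y (p * z * p⁻¹) := by
      refine cz.trans ?_
      rw [isConj_iff]
      exact ⟨p, rfl⟩
    exact hC _ _ h1 h2
  rcases hC b z cb cz with hb | hb <;> rcases hC c z cc cz with hc | hc
  · left
    exact eq44 h hz' hyz hb hc
  · rcases half h e12 hz' hyz hb (key b cb) with e | e | e
    · exact Or.inl e
    · exact Or.inl (hA z cz hz' hyz (Or.inl e))
    · exact Or.inr (Or.inl ⟨hb, e⟩)
  · rcases half h.inv e12 hz' hyz hc (key c cc) with e | e | e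
    · exact Or.inl e
    · exact Or.inl (hA z cz hz' hyz (Or.inr e))
    · exact Or.inr (Or.inr ⟨hc, fun e' => e ((hVi _).mpr e')⟩)
  · -- both of order dividing six
    left
    have h6 := six h hz' hyz hb hc
    have hbz3 : (z * b) * (z * b) * (z * b) = (b * z) * (b * z) * (b * z) := by
      have e1 : ((b * z) * (b * z) * (b * z)) * ((b * z) * (b * z) * (b * z)) = 1 := by
        rw [← hb]; simp only [pow_succ, pow_zero, one_mul, mul_assoc]
      have e2 := eq_inv_of_mul_eq_one_left e1
      rw [e2]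
      simp only [mul_inv_rev, h.bi, zi, mul_assoc]
    have hw : (z * b * z * b * z) * (z * b * z * b * z) = 1 := by
      have : (z * b * z * b * z) * (z * b * z * b * z) =
          z * b * z * b * (z * z) * b * z * b * z := by group
      rw [this, hz', mul_one]
      have : z * b * z * b * b * z * b * z = z * b * z * (b * b) * z * b * z := by group
      rw [this, h.hb, mul_one]
      have : z * b * z * z * b * z = z * b * (z * z) * b * z := by group
      rw [this, hz', mul_one]
      have : z * b * b * z = z * (b * b) * z := by group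
      rw [this, h.hb, mul_one, hz']
    have hcw : IsConj y (z * b * z * b * z) := by
      refine cz.trans ?_
      rw [isConj_iff]
      refine ⟨z * b, ?_⟩
      rw [mul_inv_rev, h.bi, zi]
      group
    have hbw : b * (z * b * z * b * z) = (z * b * z * b * z) * b := by
      have e3 : (z * b * z * b * z) * b = (z * b) * (z * b) * (z * b) := by group
      rw [e3, hbz3]
      group
    have e4 := hA _ hcw hw h6 (Or.inl hbw)
    -- the cube of `b z` is `c`
    have e5 : (b * z) * (b * z) * (b * z) = c := by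
      have : (b * z) * (b * z) * (b * z) = b * (z * b * z * b * z) := by group
      rw [this, ← e4]
      exact h.by_
    have e6 : c * z = z * c := by
      have : ((z * b) * (z * b) * (z * b)) * z = z * ((b * z) * (b * z) * (b * z)) := by group
      rw [hbz3, e5] at this
      exact this
    exact hA z cz hz' hyz (Or.inr e6)

end TCG
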