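import Pool.Agent.TCG.Four
import Pool.Agent.TCG.C44

/-!
# The case in which no product of two conjugates of `y` has order `6` or `12`
-/

set_option autoImplicit false

namespace TCG

open TCK

variable {G : Type*} [Group G]

/-- **The case `(b z) ^ 4 = (c z) ^ 4 = 1`.** -/
theorem eq44 {x y b c z : G} (h : Fr x y b c) (hz : z * z = 1)
    (hyz : (y * z) ^ 3 = 1) (hbz : (b * z) ^ 4 = 1) (hcz : (c * z) ^ 4 = 1) : y = z := by
  refine h.eq_of_norm hz hyz ?_
  have hlt : Lt (ev x y b c z 1 1 1) := lt_ev h.hy h.hb h.hc hz (mul_one 1) (mul_one 1) (mul_one 1)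
  have h1 := members hlt (Subgroup.normalizer (h.V : Set G)) (subs := [0, 1, 2]) ?_ ?_ C44.c44
  · have h2 := h1 6 (by simp)
    have h3 : wd 256 6 = [5] := by decide +kernel
    rw [h3] at h2
    simpa [evw, ev] using h2
  · intro a ha
    simp only [List.mem_cons, List.not_mem_nil, or_false] at ha
    rcases ha with rfl | rfl | rfl
    · exact ⟨by norm_num, h.x_norm⟩
    · exact ⟨by norm_num, Subgroup.inv_mem _ h.x_norm⟩
    · exact ⟨by norm_num, h.V_norm h.y_mem⟩
  · intro p hp
    simp only [List.mem_cons, List.not_mem_nil, or_false] at hp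
    rcases hp with rfl | rfl | rfl | rfl | rfl | rfl
    · refine spec (L := [2, 3, 4]) (by decide +kernel) ?_
      show (y * (b * (c * 1))) ^ 1 = 1
      rw [pow_one, mul_one, ← mul_assoc, h.yb, h.hc]
    · refine spec (L := [2, 5]) (by decide +kernel) ?_
      show (y * (z * 1)) ^ 3 = 1
      rw [mul_one, hyz]
    · refine spec (L := [3, 5]) (by decide +kernel) ?_
      show (b * (z * 1)) ^ 4 = 1
      rw [mul_one, hbz]
    · exact spec (L := [1, 2, 0, 3]) (by decide +kernel) (Amal.conj h.xy h.hb)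
    · exact spec (L := [1, 4, 0, 2]) (by decide +kernel) (Amal.conj h.xc h.hy)
    · refine spec (L := [4, 5]) (by decide +kernel) ?_
      show (c * (z * 1)) ^ 4 = 1
      rw [mul_one, hcz]

/-- **The case `(b z) ^ 3 = (c z) ^ 3 = 1`.** -/
theorem eq33 {x y b c z : G} (h : Fr x y b c) (hz : z * z = 1)
    (hyz : (y * z) ^ 3 = 1) (hbz : (b * z) ^ 3 = 1) (hcz : (c * z) ^ 3 = 1) : y = z := by
  refine h.eq_of_norm hz hyz ?_
  have ht := sq_conj (x := x) rfl hz
  have hs := sq_conj (x := x) rfl ht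
  have hlt : Lt (ev x y b c z 1 (x⁻¹ * z * x) (x⁻¹ * (x⁻¹ * z * x) * x)) :=
    lt_ev h.hy h.hb h.hc hz (mul_one 1) ht hs
  have xs : x⁻¹ * (x⁻¹ * (x⁻¹ * z * x) * x) * x = z := by
    have e : x⁻¹ * (x⁻¹ * (x⁻¹ * z * x) * x) * x = (x ^ 3)⁻¹ * z * x ^ 3 := by
      rw [pow_three]; group
    rw [e, h.hx]
    group
  have h1 := members hlt (Subgroup.normalizer (h.V : Set G)) (subs := [0, 1, 2]) ?_ ?_ C44.c33
  · have h2 := h1 6 (by simp)
    have h3 : wd 256 6 = [5] := by decide +kernel
    rw [h3] at h2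
    simpa [evw, ev] using h2
  · intro a ha
    simp only [List.mem_cons, List.not_mem_nil, or_false] at ha
    rcases ha with rfl | rfl | rfl
    · exact ⟨by norm_num, h.x_norm⟩
    · exact ⟨by norm_num, Subgroup.inv_mem _ h.x_norm⟩
    · exact ⟨by norm_num, h.V_norm h.y_mem⟩
  · intro p hp
    simp only [List.mem_cons, List.not_mem_nil, or_false] at hp
    rcases hp with rfl | rfl | rfl | rfl | rfl | rfl | rfl | rfl | rfl | rfl | rfl
    · refine spec (L := [2, 3, 4]) (by decide +kernel) ?_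
      show (y * (b * (c * 1))) ^ 1 = 1
      rw [pow_one, mul_one, ← mul_assoc, h.yb, h.hc]
    · exact spec (L := [1, 2, 0, 3]) (by decide +kernel) (Amal.conj h.xy h.hb)
    · exact spec (L := [1, 3, 0, 4]) (by decide +kernel) (Amal.conj h.xb h.hc)
    · exact spec (L := [1, 4, 0, 2]) (by decide +kernel) (Amal.conj h.xc h.hy)
    · exact spec (L := [1, 5, 0, 7]) (by decide +kernel) (Amal.conj rfl ht)
    · exact spec (L := [1, 7, 0, 8]) (by decide +kernel) (Amal.conj rfl hs)
    · exact spec (L := [1, 8, 0, 5]) (by decide +kernel) (Amal.conj xs hz)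
    · refine spec (L := [2, 5]) (by decide +kernel) ?_
      show (y * (z * 1)) ^ 3 = 1
      rw [mul_one, hyz]
    · refine spec (L := [3, 5]) (by decide +kernel) ?_
      show (b * (z * 1)) ^ 3 = 1
      rw [mul_one, hbz]
    · refine spec (L := [4, 5]) (by decide +kernel) ?_
      show (c * (z * 1)) ^ 3 = 1
      rw [mul_one, hcz]
    · refine spec (L := [3, 8]) (by decide +kernel) ?_
      show (b * ((x⁻¹ * (x⁻¹ * z * x) * x) * 1)) ^ 3 = 1
      rw [mul_one]
      exact rot_pow h.xy rfl (rot_pow h.xc rfl hcz)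

end TCG
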